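import Pool.Agent.H70.EH.Targets

/-! Module RIN of the board `eh_modules`: replacement of the copies of one instance. -/

set_option autoImplicit false

namespace Pool.Agent.H48.EH

open Finset Pool.Agent.H6.NB Pool.Agent.H70.OQ Pool.Agent.H70.EH

open Classical in
/-- discarding the points where the copies do not say `b` -/
theorem rin_aux (h3 : T_CHE) (h4 : T_MUV) (U : Type) [Fintype U] [DecidableEq U] [Nonempty U] (q : ℕ)
    (F : (U → VV q → Bool) → ℝ) (b : Bool) (hq : 100 ≤ q) (hF : ∀ P, 0 ≤ F P ∧ F P ≤ 1) :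
    ∑ P, (∏ u, mv b q (P u)) * F P - Real.exp (-(Fintype.card U * eps2 q ^ 2 / 64)) ≤
      ∑ P, (if Says q b P then ∏ u, mv b q (P u) else 0) * F P := by
  have hc := h3 U q b hq
  have hnn : ∀ P : U → VV q → Bool, 0 ≤ ∏ u, mv b q (P u) := fun P =>
    Finset.prod_nonneg fun u _ => (h4 b q).1 (P u)
  have key : ∑ P, (∏ u, mv b q (P u)) * F P - ∑ P, (if Says q b P then ∏ u, mv b q (P u) else 0) * F P ≤
      ∑ P : U → VV q → Bool, (∏ u, mv b q (P u)) * (if Says q b P then 0 else 1) := by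
    rw [← Finset.sum_sub_distrib]
    refine Finset.sum_le_sum fun P _ => ?_
    by_cases h : Says q b P
    · simp [h]
    · simp only [h, if_false, zero_mul, sub_zero, mul_one]
      have := mul_le_mul_of_nonneg_left (hF P).2 (hnn P)
      linarith
  linarith

theorem rin (h1 : T_RDI) (h2 : T_RCP) (h3 : T_CHE) (h4 : T_MUV) : T_RIN := by
  classical
  intro U _ _ _ q F Λ τ b hq hΛ hΛq hτ hF hL
  have haux := rin_aux h3 h4 U q F b hq hF
  have hs : (0 : ℝ) < √(2 ^ q) := Real.sqrt_pos.2 (by positivity)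
  have hε0 : 0 ≤ Λ / √(2 ^ q) := div_nonneg hΛ hs.le
  have hε1 : Λ / √(2 ^ q) ≤ 1 := (div_le_one hs).2 hΛq
  have hτ' : 0 ≤ τ + 1 / 2 ^ 2 ^ (q - 2) := by positivity
  have hZ : 0 ≤ ∑ P, (∏ u, mv false q (P u)) * F P :=
    Finset.sum_nonneg fun P _ => mul_nonneg
      (Finset.prod_nonneg fun u _ => (h4 false q).1 (P u)) (hF P).1
  have hcard : (0 : ℝ) ≤ Fintype.card U := Nat.cast_nonneg _
  cases b with
  | false =>
    have h5 : 0 ≤ Fintype.card U * (Λ / √(2 ^ q)) * ∑ P, (∏ u, mv false q (P u)) * F P :=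
      mul_nonneg (mul_nonneg hcard hε0) hZ
    have h6 : 0 ≤ Fintype.card U * (τ + 1 / 2 ^ 2 ^ (q - 2)) := mul_nonneg hcard hτ'
    have e : (1 - Fintype.card U * (Λ / √(2 ^ q))) * ∑ P, (∏ u, mv false q (P u)) * F P =
        ∑ P, (∏ u, mv false q (P u)) * F P -
          Fintype.card U * (Λ / √(2 ^ q)) * ∑ P, (∏ u, mv false q (P u)) * F P := by ring
    rw [e]
    linarith
  | true =>
    have h5 := h2 U (VV q → Bool) (mv true q) (mv false q) F (Λ / √(2 ^ q))
      (τ + 1 / 2 ^ 2 ^ (q - 2)) (h4 true q).1 (h4 false q).1 (h4 true q).2.1 (h4 false q).2.1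
      (fun P => (hF P).1) hε0 hε1 hτ' (fun P u =>
        h1 q (fun p => F (Function.update P u p)) Λ τ (by omega) hΛ hΛq hτ (fun ρ => hL P u ρ)
          (fun y => hF _))
    linarith

end Pool.Agent.H48.EH
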